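import Mathlib

/-! # The Hankel determinant of the coefficients of (1+X)^(1/3) -/

namespace Pool.Agent.H83.TA

open Finset Polynomial
open scoped Nat

/-- binomial coefficients with a complex upper entry -/
noncomputable def bin (A : ℂ) (n : ℕ) : ℂ := (∏ l ∈ range n, (A - l)) / (n ! : ℂ)

lemma bin_zero (A : ℂ) : bin A 0 = 1 := by simp [bin]

lemma bin_succ_mul (A : ℂ) (n : ℕ) : bin A (n + 1) * (n + 1) = bin A n * (A - n) := by
  unfold bin
  have h : (n ! : ℂ) ≠ 0 := by exact_mod_cast Nat.factorial_ne_zero n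
  have h2 : ((n : ℂ) + 1) ≠ 0 := by exact_mod_cast Nat.succ_ne_zero n
  rw [Finset.prod_range_succ, Nat.factorial_succ]
  push_cast
  field_simp

lemma prod_shift (A : ℂ) (n : ℕ) :
    ∏ l ∈ range (n + 1), (A + 1 - l) = (A + 1) * ∏ l ∈ range n, (A - l) := by
  rw [Finset.prod_range_succ']
  simp only [Nat.cast_add, Nat.cast_one, Nat.cast_zero, sub_zero]
  rw [mul_comm]
  congr 1
  apply Finset.prod_congr rfl
  intro l _
  ring

lemma bin_pascal (A : ℂ) (n : ℕ) : bin (A + 1) (n + 1) = bin A n + bin A (n + 1) := by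
  have h : (n ! : ℂ) ≠ 0 := by exact_mod_cast Nat.factorial_ne_zero n
  have h2 : ((n : ℂ) + 1) ≠ 0 := by exact_mod_cast Nat.succ_ne_zero n
  unfold bin
  rw [prod_shift, Finset.prod_range_succ (fun l : ℕ => (A - l)), Nat.factorial_succ]
  push_cast
  field_simp
  ring

/-- MacMahon / Vandermonde convolution by induction -/
lemma sum_choose_bin (A : ℂ) (i j N : ℕ) (hi : i < N) :
    ∑ k ∈ range N, (i.choose k : ℂ) * bin A (k + j + 1) = bin (A + i) (i + j + 1) := by
  induction i generalizing j with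
  | zero =>
    rw [Finset.sum_eq_single 0]
    · simp
    · intro b _ hb
      rw [Nat.choose_eq_zero_of_lt (by omega)]
      simp
    · intro h
      exact absurd (Finset.mem_range.2 hi) h
  | succ i ih =>
    have h1 := ih j (by omega)
    have h2 := ih (j + 1) (by omega)
    have e : A + ((i + 1 : ℕ) : ℂ) = (A + i) + 1 := by push_cast; ring
    rw [e, show i + 1 + j + 1 = (i + j + 1) + 1 by ring, bin_pascal, ← h1]
    rw [show i + j + 1 + 1 = i + (j + 1) + 1 by ring, ← h2]
    obtain ⟨M, rfl⟩ : ∃ M, N = M + 1 := ⟨N - 1, by omega⟩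
    rw [Finset.sum_range_succ' (fun k => ((i + 1).choose k : ℂ) * bin A (k + j + 1))]
    rw [Finset.sum_range_succ' (fun k => (i.choose k : ℂ) * bin A (k + j + 1))]
    rw [Finset.sum_range_succ (fun k => (i.choose k : ℂ) * bin A (k + (j + 1) + 1))]
    rw [Nat.choose_eq_zero_of_lt (show i < M by omega)]
    simp only [Nat.choose_succ_succ, Nat.choose_zero_right, Nat.cast_add, add_mul,
      Finset.sum_add_distrib, Nat.cast_zero, zero_mul, add_zero]
    have : ∀ k, k + 1 + j + 1 = k + (j + 1) + 1 := fun k => by ring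
    simp only [this]
    ring

/-- numerator splitting -/
lemma bin_split (A : ℂ) (i j : ℕ) :
    bin (A + i) (i + j + 1) =
      (∏ l ∈ range i, (A + (l + 1 : ℕ))) * (∏ l ∈ range (j + 1), (A - l)) *
        (1 / ((i + j + 1)! : ℂ)) := by
  have key : ∀ i : ℕ, ∏ l ∈ range (i + j + 1), (A + i - l) =
      (∏ l ∈ range i, (A + (l + 1 : ℕ))) * (∏ l ∈ range (j + 1), (A - l)) := by
    intro i
    induction i with
    | zero => simp
    | succ i ih =>
      have e : A + ((i + 1 : ℕ) : ℂ) = (A + i) + 1 := by push_cast; ring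
      rw [e, show i + 1 + j + 1 = (i + j + 1) + 1 by ring, prod_shift, ih,
        Finset.prod_range_succ (fun l : ℕ => (A + (l + 1 : ℕ)))]
      push_cast
      ring
  unfold bin
  rw [key i]
  ring

/-- the reversed columns: determinant of the descending factorials -/
lemma det_desc_rev (N : ℕ) (x : Fin N → ℂ) :
    (Matrix.of fun i j : Fin N => ((descPochhammer ℂ (Fin.rev j : Fin N)).eval (x i))).det =
      ∏ j : Fin N, ∏ i ∈ Finset.Iio j, (x i - x j) := by
  have h1 : (Matrix.of fun i j : Fin N =>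
      ((descPochhammer ℂ (Fin.rev j : Fin N)).eval (x i))).det =
      (Equiv.Perm.sign (Fin.revPerm : Equiv.Perm (Fin N)) : ℂ) * (Matrix.vandermonde x).det := by
    rw [Matrix.det_eval_matrixOfPolynomials_eq_det_vandermonde x
      (fun i => descPochhammer ℂ i) (fun i => descPochhammer_natDegree ℂ i)
      (fun i => monic_descPochhammer ℂ i)]
    rw [← Matrix.det_permute']
    rfl
  have h2 : (Matrix.projVandermonde (1 : Fin N → ℂ) x).det =
      (Equiv.Perm.sign (Fin.revPerm : Equiv.Perm (Fin N)) : ℂ) * (Matrix.vandermonde x).det := by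
    rw [← Matrix.det_permute']
    congr 1
    ext i j
    simp [Matrix.projVandermonde_apply, Matrix.vandermonde_apply, Matrix.submatrix_apply]
  rw [h1, ← h2, Matrix.det_projVandermonde]
  simp only [Pi.one_apply, one_mul]
  rw [Finset.prod_sigma', Finset.prod_sigma']
  refine Finset.prod_bij' (fun p _ => ⟨p.2, p.1⟩) (fun p _ => ⟨p.2, p.1⟩) ?_ ?_ ?_ ?_ ?_
  · rintro ⟨a, b⟩ h
    simp at h ⊢
    exact h
  · rintro ⟨a, b⟩ h
    simp at h ⊢
    exact h
  · rintro ⟨a, b⟩ h
    rfl
  · rintro ⟨a, b⟩ h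
    rfl
  · rintro ⟨a, b⟩ h
    rfl

lemma det_inv_fact (N : ℕ) :
    (Matrix.of fun i j : Fin N => (1 / (((i : ℕ) + j + 1)! : ℂ))).det =
      ∏ i : Fin N, ((-1) ^ (i : ℕ) * ((i : ℕ)! : ℂ) / ((N + i)! : ℂ)) := by
  have hf : ∀ n : ℕ, (n ! : ℂ) ≠ 0 := fun n => by exact_mod_cast Nat.factorial_ne_zero n
  have h1 : (Matrix.of fun i j : Fin N => (1 / (((i : ℕ) + j + 1)! : ℂ))) =
      Matrix.of fun i j : Fin N => (1 / ((N + i)! : ℂ)) *
        (Matrix.of fun i j : Fin N => ((descPochhammer ℂ (Fin.rev j : Fin N)).eval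
          (((N + (i : ℕ) : ℕ) : ℂ)))) i j := by
    ext i j
    simp only [Matrix.of_apply]
    rw [descPochhammer_eval_eq_descFactorial]
    have hj : ((Fin.rev j : Fin N) : ℕ) = N - (j + 1) := Fin.val_rev j
    rw [hj]
    have h3 := Nat.factorial_mul_descFactorial (show N - (j + 1 : ℕ) ≤ N + i by omega)
    have h4 : N + (i : ℕ) - (N - (j + 1 : ℕ)) = i + j + 1 := by have := j.2; omega
    rw [h4] at h3
    have h5 : (((i : ℕ) + j + 1)! : ℂ) * (((N + (i : ℕ)).descFactorial (N - (j + 1 : ℕ)) : ℕ) : ℂ) =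
        ((N + i)! : ℂ) := by exact_mod_cast h3
    field_simp [hf]
    rw [← h5]
  rw [h1, Matrix.det_mul_column, det_desc_rev]
  have h6 : ∀ j : Fin N, ∏ i ∈ Finset.Iio j, ((((N + (i : ℕ) : ℕ) : ℂ)) -
      (((N + (j : ℕ) : ℕ) : ℂ))) = (-1) ^ (j : ℕ) * ((j : ℕ)! : ℂ) := by
    intro j
    have : ∏ i ∈ Finset.Iio j, ((((N + (i : ℕ) : ℕ) : ℂ)) - (((N + (j : ℕ) : ℕ) : ℂ))) =
        ∏ i ∈ range (j : ℕ), ((i : ℂ) - (j : ℕ)) := by
      refine Finset.prod_bij' (fun a _ => (a : ℕ))
        (fun a ha => ⟨a, lt_trans (Finset.mem_range.1 ha) j.2⟩) ?_ ?_ ?_ ?_ ?_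
      · intro a ha
        simpa using ha
      · intro a ha
        simp at ha ⊢
        exact ha
      · intro a _
        rfl
      · intro a _
        rfl
      · intro a _
        push_cast
        ring
    rw [this]
    generalize (j : ℕ) = n
    have h7 : ∀ n : ℕ, ∏ i ∈ range n, ((i : ℂ) - (n : ℕ)) = (-1) ^ n * (n ! : ℂ) := by
      intro n
      rw [← Finset.prod_range_reflect]
      have : ∀ i ∈ range n, (((n - 1 - i : ℕ) : ℂ) - (n : ℂ)) = (-1) * ((i : ℂ) + 1) := by
        intro i hi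
        have := Finset.mem_range.1 hi
        have h8 : n = (n - 1 - i) + (i + 1) := by omega
        have h9 : (n : ℂ) = ((n - 1 - i : ℕ) : ℂ) + ((i : ℂ) + 1) := by exact_mod_cast h8
        rw [h9]
        have h10 : ((n - 1 - i : ℕ) : ℂ) + ((i : ℂ) + 1) = (n : ℂ) := h9.symm
        linear_combination 0 * h10
      rw [Finset.prod_congr rfl this, Finset.prod_mul_distrib, Finset.prod_const,
        Finset.card_range, ← Finset.prod_range_add_one_eq_factorial]
      push_cast
      rfl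
    exact h7 n
  rw [Finset.prod_congr rfl (fun j _ => h6 j), ← Finset.prod_mul_distrib]
  apply Finset.prod_congr rfl
  intro i _
  ring

/-- the Hankel determinant -/
theorem det_hankel_bin (A : ℂ) (N : ℕ) :
    (Matrix.of fun i j : Fin N => bin A ((i : ℕ) + j + 1)).det =
      ∏ i : Fin N, ((∏ l ∈ range (i : ℕ), (A + (l + 1 : ℕ))) *
        (∏ l ∈ range ((i : ℕ) + 1), (A - l)) *
        ((-1) ^ (i : ℕ) * ((i : ℕ)! : ℂ) / ((N + i)! : ℂ))) := by
  set T : Matrix (Fin N) (Fin N) ℂ := Matrix.of fun i k : Fin N => (((i : ℕ).choose k : ℕ) : ℂ)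
    with hT
  have hdT : T.det = 1 := by
    rw [Matrix.det_of_isLowerTriangular]
    · simp [hT]
    · intro i j hij
      have : (i : ℕ) < j := hij
      simp [hT, Nat.choose_eq_zero_of_lt this]
  have h1 : T * (Matrix.of fun i j : Fin N => bin A ((i : ℕ) + j + 1)) =
      Matrix.of fun i j : Fin N => (∏ l ∈ range (i : ℕ), (A + (l + 1 : ℕ))) *
        (Matrix.of fun i j : Fin N => (∏ l ∈ range ((j : ℕ) + 1), (A - l)) *
          (Matrix.of fun i j : Fin N => (1 / (((i : ℕ) + j + 1)! : ℂ))) i j) i j := by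
    ext i j
    rw [Matrix.mul_apply]
    simp only [hT, Matrix.of_apply]
    rw [Fin.sum_univ_eq_sum_range (fun k => (((i : ℕ).choose k : ℕ) : ℂ) * bin A (k + j + 1)) N,
      sum_choose_bin A i j N i.2, bin_split]
    ring
  have h2 : (T * (Matrix.of fun i j : Fin N => bin A ((i : ℕ) + j + 1))).det =
      (Matrix.of fun i j : Fin N => bin A ((i : ℕ) + j + 1)).det := by
    rw [Matrix.det_mul, hdT, one_mul]
  rw [← h2, h1, Matrix.det_mul_column, Matrix.det_mul_row, det_inv_fact,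
    ← Finset.prod_mul_distrib, ← Finset.prod_mul_distrib]
  apply Finset.prod_congr rfl
  intro i _
  ring

lemma third_factor (i : ℕ) :
    (∏ l ∈ range i, ((1 / 3 : ℂ) + (l + 1 : ℕ))) * (∏ l ∈ range (i + 1), ((1 / 3 : ℂ) - l)) *
        ((-1) ^ i * (i ! : ℂ)) = ((3 * i + 1)! : ℂ) / 3 ^ (3 * i + 1) := by
  induction i with
  | zero => simp
  | succ i ih =>
    rw [Finset.prod_range_succ, Finset.prod_range_succ _ (i + 1), Nat.factorial_succ i,
      show 3 * (i + 1) + 1 = (3 * i + 1) + 3 by ring]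
    rw [show (3 * i + 1 + 3)! = (3 * i + 4) * ((3 * i + 3) * ((3 * i + 2) * (3 * i + 1)!)) by
      rw [show 3 * i + 1 + 3 = (3 * i + 3) + 1 by ring, Nat.factorial_succ,
        Nat.factorial_succ, Nat.factorial_succ]]
    rw [pow_add (3 : ℂ) (3 * i + 1) 3]
    have h3 : (3 : ℂ) ^ (3 * i + 1) ≠ 0 := pow_ne_zero _ (by norm_num)
    rw [eq_div_iff h3] at ih
    rw [eq_div_iff (mul_ne_zero h3 (by norm_num)), pow_succ (-1 : ℂ) i]
    push_cast at ih ⊢
    linear_combination (3 * (i : ℂ) + 4) * ((3 * i + 3) * (3 * i + 2)) * ih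

theorem det_hankel_third (N : ℕ) :
    (Matrix.of fun i j : Fin N => bin (1 / 3) ((i : ℕ) + j + 1)).det =
      ∏ i : Fin N, (((3 * i + 1)! : ℂ) / 3 ^ (3 * (i : ℕ) + 1) / ((N + i)! : ℂ)) := by
  rw [det_hankel_bin]
  apply Finset.prod_congr rfl
  intro i _
  rw [← third_factor i]
  ring

end Pool.Agent.H83.TA
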