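import Mathlib
import Pool.Agent.H83.TA.Hankel

/-! # Determinants of coefficient matrices of bivariate power series, changes of variables -/

namespace Pool.Agent.H83.TA

open Finset PowerSeries

/-- bivariate power series: outer variable S, inner variable T -/
abbrev DD := PowerSeries (PowerSeries ℂ)

noncomputable def i1 : PowerSeries ℂ →+* DD := PowerSeries.map (PowerSeries.C)
noncomputable def i2 : PowerSeries ℂ →+* DD := PowerSeries.C

/-- coefficient matrix -/
noncomputable def cm (N : ℕ) (F : DD) : Matrix (Fin N) (Fin N) ℂ :=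
  Matrix.of fun i j => coeff (j : ℕ) (coeff (i : ℕ) F)

/-- Toeplitz matrix -/
noncomputable def toep (N : ℕ) (f : PowerSeries ℂ) : Matrix (Fin N) (Fin N) ℂ :=
  Matrix.of fun i k => if (k : ℕ) ≤ i then coeff ((i : ℕ) - k) f else 0

lemma det_toep (N : ℕ) (f : PowerSeries ℂ) : (toep N f).det = (constantCoeff f) ^ N := by
  rw [Matrix.det_of_isLowerTriangular]
  · simp [toep]
  · intro i j hij
    have : (i : ℕ) < j := hij
    simp only [toep, Matrix.of_apply]
    rw [if_neg (by omega)]

lemma coeff_mul_lt (f g : PowerSeries ℂ) (N i : ℕ) (hi : i < N) :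
    coeff i (f * g) = ∑ k ∈ range N, (if k ≤ i then coeff (i - k) f else 0) * coeff k g := by
  rw [mul_comm, coeff_mul, Finset.Nat.sum_antidiagonal_eq_sum_range_succ
    (fun a b => coeff a g * coeff b f)]
  rw [← Finset.sum_subset (Finset.range_subset_range.2 (show i + 1 ≤ N by omega))]
  · apply Finset.sum_congr rfl
    intro k hk
    rw [if_pos (by have := Finset.mem_range.1 hk; omega)]
    ring
  · intro k _ hk
    rw [if_neg (by simp at hk; omega), zero_mul]

lemma coeff_i1 (f : PowerSeries ℂ) (n : ℕ) : coeff n (i1 f) = C (coeff n f) := by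
  simp [i1]

lemma cm_i1_mul (N : ℕ) (f : PowerSeries ℂ) (F : DD) : cm N (i1 f * F) = toep N f * cm N F := by
  ext i j
  rw [Matrix.mul_apply]
  simp only [cm, toep, Matrix.of_apply]
  rw [Fin.sum_univ_eq_sum_range (fun k => (if k ≤ (i : ℕ) then coeff ((i : ℕ) - k) f else 0) *
    coeff (j : ℕ) (coeff k F)) N]
  rw [mul_comm, coeff_mul, Finset.Nat.sum_antidiagonal_eq_sum_range_succ
    (fun a b => coeff a F * coeff b (i1 f))]
  rw [map_sum]
  rw [← Finset.sum_subset (Finset.range_subset_range.2 (show (i : ℕ) + 1 ≤ N by omega))]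
  · apply Finset.sum_congr rfl
    intro k hk
    rw [if_pos (by have := Finset.mem_range.1 hk; omega), coeff_i1, coeff_mul_C]
    ring
  · intro k _ hk
    rw [if_neg (by simp at hk; omega), zero_mul]

lemma cm_i2_mul (N : ℕ) (f : PowerSeries ℂ) (F : DD) :
    cm N (i2 f * F) = cm N F * (toep N f).transpose := by
  ext i j
  rw [Matrix.mul_apply]
  simp only [cm, toep, Matrix.of_apply, Matrix.transpose_apply, i2]
  rw [Fin.sum_univ_eq_sum_range (fun k => coeff k (coeff (i : ℕ) F) *
    (if k ≤ (j : ℕ) then coeff ((j : ℕ) - k) f else 0)) N]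
  rw [coeff_C_mul, coeff_mul_lt f _ N j j.2]
  apply Finset.sum_congr rfl
  intro k _
  ring

lemma coeff_pow_of_lt {R : Type*} [CommRing R] (f : PowerSeries R) (hf : constantCoeff f = 0)
    {i m : ℕ} (h : i < m) : coeff i (f ^ m) = 0 := by
  have h1 : (X : PowerSeries R) ∣ f := X_dvd_iff.2 hf
  have h2 : (X : PowerSeries R) ^ m ∣ f ^ m := pow_dvd_pow_of_dvd h1 m
  exact X_pow_dvd_iff.1 h2 i h

lemma coeff_pow_self {R : Type*} [CommRing R] (f : PowerSeries R) (hf : constantCoeff f = 0)
    (i : ℕ) : coeff i (f ^ i) = (coeff 1 f) ^ i := by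
  obtain ⟨g, rfl⟩ := X_dvd_iff.2 hf
  have h1 : coeff i ((X * g) ^ i) = coeff 0 (g ^ i) := by
    rw [mul_pow]
    have := coeff_X_pow_mul (g ^ i) i 0
    rwa [zero_add] at this
  have h2 : coeff 1 (X * g) = coeff 0 g := by
    exact coeff_succ_X_mul 0 g
  rw [h1, h2]
  simp

/-- power matrix -/
noncomputable def pm (N : ℕ) (f : PowerSeries ℂ) : Matrix (Fin N) (Fin N) ℂ :=
  Matrix.of fun i m => coeff (i : ℕ) (f ^ (m : ℕ))

lemma det_pm (N : ℕ) (f : PowerSeries ℂ) (hf : constantCoeff f = 0) :
    (pm N f).det = ∏ i : Fin N, (coeff 1 f) ^ (i : ℕ) := by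
  rw [Matrix.det_of_isLowerTriangular]
  · simp [pm, coeff_pow_self f hf]
  · intro i j hij
    have : (i : ℕ) < j := hij
    simp [pm, coeff_pow_of_lt f hf this]

lemma coeff_subst_lt {R S : Type*} [CommRing R] [CommRing S] [Algebra R S] (b : PowerSeries S)
    (hb : constantCoeff b = 0) (f : PowerSeries R) {e N : ℕ} (he : e < N) :
    coeff e (f.subst b) = ∑ d ∈ range N, coeff d f • coeff e (b ^ d) := by
  rw [coeff_subst' (HasSubst.of_constantCoeff_zero' hb)]
  apply finsum_eq_sum_of_support_subset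
  intro d hd
  rw [Function.mem_support] at hd
  simp only [Finset.coe_range, Set.mem_Iio]
  by_contra h
  exact hd (by rw [coeff_pow_of_lt b hb (by omega), smul_zero])

lemma i1_const (f : PowerSeries ℂ) (hf : constantCoeff f = 0) : constantCoeff (i1 f) = 0 := by
  have := coeff_i1 f 0
  rw [coeff_zero_eq_constantCoeff_apply, coeff_zero_eq_constantCoeff_apply, hf, map_zero] at this
  exact this

/-- one variable substitution as a ring homomorphism -/
noncomputable def sub1 {R : Type*} [CommRing R] (b : PowerSeries R) (hb : constantCoeff b = 0) :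
    PowerSeries R →+* PowerSeries R where
  toFun F := F.subst b
  map_one' := by
    rw [← coe_substAlgHom (HasSubst.of_constantCoeff_zero' hb), map_one]
  map_mul' F G := by
    rw [← coe_substAlgHom (HasSubst.of_constantCoeff_zero' hb), map_mul]
  map_zero' := by
    rw [← coe_substAlgHom (HasSubst.of_constantCoeff_zero' hb), map_zero]
  map_add' F G := by
    rw [← coe_substAlgHom (HasSubst.of_constantCoeff_zero' hb), map_add]

lemma sub1_apply {R : Type*} [CommRing R] (b : PowerSeries R) (hb : constantCoeff b = 0)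
    (F : PowerSeries R) : sub1 b hb F = F.subst b := rfl

lemma sub1_X {R : Type*} [CommRing R] (b : PowerSeries R) (hb : constantCoeff b = 0) :
    sub1 b hb X = b := by
  rw [sub1_apply]
  exact subst_X (HasSubst.of_constantCoeff_zero' hb)

lemma sub1_C {R : Type*} [CommRing R] (b : PowerSeries R) (hb : constantCoeff b = 0) (r : R) :
    sub1 b hb (C r) = C r := by
  rw [sub1_apply]
  exact subst_C r

/-- substitution of f for S and g for T -/
noncomputable def theta (f g : PowerSeries ℂ) (hf : constantCoeff f = 0)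
    (hg : constantCoeff g = 0) : DD →+* DD :=
  (sub1 (i1 f) (i1_const f hf)).comp (PowerSeries.map (sub1 g hg))

lemma theta_apply (f g : PowerSeries ℂ) (hf : constantCoeff f = 0) (hg : constantCoeff g = 0)
    (F : DD) : theta f g hf hg F = (PowerSeries.map (sub1 g hg) F).subst (i1 f) := rfl

lemma cm_theta (N : ℕ) (f g : PowerSeries ℂ) (hf : constantCoeff f = 0)
    (hg : constantCoeff g = 0) (F : DD) :
    cm N (theta f g hf hg F) = pm N f * cm N F * (pm N g).transpose := by
  ext i j
  rw [Matrix.mul_apply]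
  simp only [cm, pm, Matrix.of_apply, Matrix.transpose_apply, Matrix.mul_apply]
  rw [theta_apply, coeff_subst_lt (i1 f) (i1_const f hf) _ i.2, map_sum]
  simp only [← map_pow, coeff_i1, coeff_map]
  have h1 : ∀ d : ℕ, coeff (j : ℕ) ((sub1 g hg (coeff d F)) •
        (C (coeff (i : ℕ) (f ^ d)) : PowerSeries ℂ)) =
      (∑ n ∈ range N, coeff n (coeff d F) * coeff (j : ℕ) (g ^ n)) * coeff (i : ℕ) (f ^ d) := by
    intro d
    rw [smul_eq_mul, coeff_mul_C]
    congr 1
    rw [sub1_apply, coeff_subst_lt g hg _ j.2]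
    simp only [smul_eq_mul]
  rw [Finset.sum_congr rfl (fun d _ => h1 d)]
  rw [Fin.sum_univ_eq_sum_range (fun n => (∑ m : Fin N, coeff (i : ℕ) (f ^ (m : ℕ)) *
    coeff n (coeff (m : ℕ) F)) * coeff (j : ℕ) (g ^ n)) N]
  have h2 : ∀ n : ℕ, (∑ m : Fin N, coeff (i : ℕ) (f ^ (m : ℕ)) * coeff n (coeff (m : ℕ) F)) =
      ∑ m ∈ range N, coeff (i : ℕ) (f ^ m) * coeff n (coeff m F) := fun n =>
    Fin.sum_univ_eq_sum_range (fun m => coeff (i : ℕ) (f ^ m) * coeff n (coeff m F)) N
  simp only [h2, Finset.sum_mul]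
  rw [Finset.sum_comm]
  apply Finset.sum_congr rfl
  intro n _
  apply Finset.sum_congr rfl
  intro m _
  ring

lemma theta_i1 (f g : PowerSeries ℂ) (hf : constantCoeff f = 0) (hg : constantCoeff g = 0) :
    theta f g hf hg (X : DD) = i1 f := by
  unfold theta
  rw [RingHom.comp_apply, map_X, sub1_X]

lemma theta_i2 (f g : PowerSeries ℂ) (hf : constantCoeff f = 0) (hg : constantCoeff g = 0) :
    theta f g hf hg (C (X : PowerSeries ℂ) : DD) = i2 g := by
  unfold theta
  rw [RingHom.comp_apply, map_C, sub1_X, sub1_C]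
  rfl

lemma theta_const (f g : PowerSeries ℂ) (hf : constantCoeff f = 0) (hg : constantCoeff g = 0)
    (z : ℂ) : theta f g hf hg (C (C z) : DD) = C (C z) := by
  unfold theta
  rw [RingHom.comp_apply, map_C, sub1_C, sub1_C]

/-- the master determinant identity -/
theorem det_transform (N : ℕ) (f g a b : PowerSeries ℂ) (hf : constantCoeff f = 0)
    (hg : constantCoeff g = 0) (K H : DD)
    (h : theta f g hf hg K = i1 a * (i2 b * H)) :
    (∏ i : Fin N, (coeff 1 f * coeff 1 g) ^ (i : ℕ)) * (cm N K).det =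
      (constantCoeff a * constantCoeff b) ^ N * (cm N H).det := by
  have h1 := congrArg (fun F => (cm N F).det) h
  simp only [cm_theta, cm_i1_mul, cm_i2_mul, Matrix.det_mul, Matrix.det_transpose,
    det_pm N f hf, det_pm N g hg, det_toep] at h1
  simp only [mul_pow, Finset.prod_mul_distrib]
  linear_combination h1

end Pool.Agent.H83.TA
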