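import Mathlib
import Pool.Agent.H83.TA.Hankel
import Pool.Agent.H83.TA.Trans

/-! # det (w + P_N) at a primitive cube root of unity w -/

namespace Pool.Agent.H83.TA

open Finset PowerSeries
open scoped Nat

/-- (1+X)^(1/3) -/
noncomputable def g3 : PowerSeries ℂ := PowerSeries.binomialSeries ℂ (1 / 3 : ℚ)

lemma g3_cube : g3 ^ 3 = 1 + X := by
  have h1 : g3 ^ 3 = PowerSeries.binomialSeries ℂ ((1 / 3 : ℚ) + 1 / 3 + 1 / 3) := by
    rw [binomialSeries_add, binomialSeries_add, g3]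
    ring
  rw [h1]
  have h2 : ((1 / 3 : ℚ) + 1 / 3 + 1 / 3) = ((1 : ℕ) : ℚ) := by norm_num
  rw [h2, binomialSeries_nat, pow_one]

lemma g3_const : constantCoeff g3 = 1 := by
  unfold g3
  exact binomialSeries_constantCoeff (A := ℂ) (1 / 3 : ℚ)

lemma choose_cast (n : ℕ) : ((Ring.choose (1 / 3 : ℚ) n : ℚ) : ℂ) = bin (1 / 3) n := by
  have h : ∀ n : ℕ, Ring.choose (1 / 3 : ℚ) n =
      (∏ l ∈ range n, ((1 / 3 : ℚ) - l)) / (n ! : ℚ) := by
    intro n
    rw [Ring.choose_eq_smul, smul_eq_mul, inv_mul_eq_div]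
    congr 1
    induction n with
    | zero => simp
    | succ n ih =>
      rw [Finset.prod_range_succ, ← ih, descPochhammer_succ_right, Polynomial.smeval_mul,
        Polynomial.smeval_sub, Polynomial.smeval_natCast, Polynomial.smeval_X]
      simp
  rw [h n, bin]
  push_cast
  rfl

lemma coeff_g3 (n : ℕ) : coeff n g3 = bin (1 / 3) n := by
  unfold g3
  rw [binomialSeries_coeff, ← choose_cast, Rat.smul_def, mul_one]

/-- the Hankel kernel -/
noncomputable def HH : DD := PowerSeries.mk fun i => PowerSeries.mk fun j => bin (1 / 3) (i + j + 1)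

lemma HH_rel : ((X : DD) - C (X : PowerSeries ℂ)) * HH = i1 g3 - i2 g3 := by
  ext i j
  rw [sub_mul, map_sub, map_sub, map_sub, map_sub, coeff_i1, coeff_C_mul]
  rcases i with _ | i <;> rcases j with _ | j
  · simp [HH, i2, coeff_g3]
  · simp [HH, i2, coeff_g3, coeff_succ_X_mul, coeff_C]
  · rw [coeff_succ_X_mul]
    simp [HH, i2, coeff_g3]
  · rw [coeff_succ_X_mul, coeff_succ_X_mul]
    simp only [HH, coeff_mk, i2, coeff_C, if_neg (Nat.succ_ne_zero i)]
    rw [if_neg (Nat.succ_ne_zero j), map_zero, show i + (j + 1) + 1 = i + 1 + j + 1 by ring]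
    ring

/-- the Pascal kernel -/
noncomputable def KK (w : ℂ) : DD :=
  PowerSeries.mk fun i => PowerSeries.mk fun j =>
    (w * (if i = j then 1 else 0) + ((i + j).choose i : ℂ))

lemma KK_rel (w : ℂ) (hw : w ^ 2 + w + 1 = 0) :
    (1 - (X : DD) * C (X : PowerSeries ℂ)) * (1 - (X : DD) - C (X : PowerSeries ℂ)) * KK w =
      -(((X : DD) + C (C w)) * (C (X : PowerSeries ℂ) + C (C w))) := by
  set K1 : DD := PowerSeries.mk fun i => PowerSeries.mk fun j => if i = j then 1 else 0 with hK1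
  set K2 : DD := PowerSeries.mk fun i => PowerSeries.mk fun j => ((i + j).choose i : ℂ) with hK2
  have h1 : (1 - (X : DD) * C (X : PowerSeries ℂ)) * K1 = 1 := by
    rw [sub_mul, one_mul]
    ext i j
    rw [map_sub, map_sub, mul_assoc]
    rcases i with _ | i <;> rcases j with _ | j
    · simp [hK1]
    · simp [hK1, coeff_one]
    · rw [coeff_succ_X_mul, coeff_C_mul]
      simp [hK1, coeff_one]
    · rw [coeff_succ_X_mul, coeff_C_mul, coeff_succ_X_mul]
      simp [hK1, coeff_one]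
  have h2 : (1 - (X : DD) - C (X : PowerSeries ℂ)) * K2 = 1 := by
    rw [sub_mul, sub_mul, one_mul]
    ext i j
    rw [map_sub, map_sub, map_sub, map_sub, coeff_C_mul]
    rcases i with _ | i <;> rcases j with _ | j
    · simp [hK2]
    · rw [coeff_succ_X_mul]
      simp [hK2, coeff_one]
    · rw [coeff_succ_X_mul]
      simp [hK2, coeff_one]
    · rw [coeff_succ_X_mul, coeff_succ_X_mul]
      simp only [hK2, coeff_mk, coeff_one]
      rw [if_neg (by omega)]
      rw [show i + 1 + (j + 1) = (i + j + 1) + 1 by ring, Nat.choose_succ_succ,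
        show i + (j + 1) = i + j + 1 by ring, show i + 1 + j = i + j + 1 by ring]
      push_cast
      simp
  have h3 : KK w = C (C w) * K1 + K2 := by
    ext i j
    simp [KK, hK1, hK2, coeff_C_mul]
  have h4 : (C (C w) : DD) ^ 2 + C (C w) + 1 = 0 := by
    have := congrArg (fun z : ℂ => (C (C z) : DD)) hw
    simpa using this
  rw [h3]
  linear_combination (1 - (X : DD) - C (X : PowerSeries ℂ)) * C (C w) * h1 +
    (1 - (X : DD) * C (X : PowerSeries ℂ)) * h2 + h4

section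
variable (q : ℂ)

noncomputable def uu : PowerSeries ℂ := C (q - 2) * g3 - C (1 + q)
noncomputable def vv : PowerSeries ℂ := C (q + 1) * g3 + C (2 - q)
noncomputable def phi : PowerSeries ℂ := C (2 * q - 1) * (g3 - 1) * (uu q)⁻¹
noncomputable def psi : PowerSeries ℂ := C (2 * q - 1) * (g3 - 1) * (vv q)⁻¹

lemma uu_const : constantCoeff (uu q) = -3 := by
  simp [uu, g3_const]
  ring

lemma vv_const : constantCoeff (vv q) = 3 := by
  simp [vv, g3_const]
  ring

lemma phi_mul : phi q * uu q = C (2 * q - 1) * (g3 - 1) := by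
  unfold phi
  rw [mul_assoc, PowerSeries.inv_mul_cancel, mul_one]
  rw [uu_const]
  norm_num

lemma psi_mul : psi q * vv q = C (2 * q - 1) * (g3 - 1) := by
  unfold psi
  rw [mul_assoc, PowerSeries.inv_mul_cancel, mul_one]
  rw [vv_const]
  norm_num

lemma phi_const : constantCoeff (phi q) = 0 := by
  unfold phi
  simp [g3_const]

lemma psi_const : constantCoeff (psi q) = 0 := by
  unfold psi
  simp [g3_const]

lemma bin_one : bin (1 / 3) 1 = 1 / 3 := by
  simp [bin]

lemma phi_one : coeff 1 (phi q) = -(2 * q - 1) / 9 := by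
  have h := congrArg (coeff 1) (phi_mul q)
  rw [coeff_mul, coeff_C_mul, Finset.Nat.antidiagonal_succ, map_sub, coeff_g3, bin_one] at h
  simp [phi_const, uu_const, coeff_one] at h
  linear_combination -h / 3

lemma psi_one : coeff 1 (psi q) = (2 * q - 1) / 9 := by
  have h := congrArg (coeff 1) (psi_mul q)
  rw [coeff_mul, coeff_C_mul, Finset.Nat.antidiagonal_succ, map_sub, coeff_g3, bin_one] at h
  simp [psi_const, vv_const, coeff_one] at h
  linear_combination h / 3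

end

lemma alg_identity {R : Type*} [CommRing R] (Q x y : R) (hQ : Q ^ 2 - Q + 1 = 0) :
    (((Q - 2) * x - (1 + Q)) * ((Q + 1) * y + (2 - Q)) -
      (2 * Q - 1) * (x - 1) * ((2 * Q - 1) * (y - 1))) *
    (((Q - 2) * x - (1 + Q)) * ((Q + 1) * y + (2 - Q)) -
      (2 * Q - 1) * (x - 1) * ((Q + 1) * y + (2 - Q)) -
      (2 * Q - 1) * (y - 1) * ((Q - 2) * x - (1 + Q))) = 27 * (x ^ 2 + x * y + y ^ 2) := by
  linear_combination (9*Q^2*x^2*y^2 + -18*Q^2*x^2*y^1 + 9*Q^2*x^2 + -18*Q^2*x^1*y^2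
    + 36*Q^2*x^1*y^1 + -18*Q^2*x^1 + 9*Q^2*y^2 + -18*Q^2*y^1 + 9*Q^2 + -9*Q^1*x^2*y^2
    + 18*Q^1*x^2*y^1 + -9*Q^1*x^2 + 18*Q^1*x^1*y^2 + -36*Q^1*x^1*y^1 + 18*Q^1*x^1
    + -9*Q^1*y^2 + 18*Q^1*y^1 + -9*Q^1 + 9*x^2*y^2 + 9*x^2*y^1 + -27*x^2 + 9*x^1*y^2
    + 9*x^1 + -27*y^2 + 9*y^1 + 9) * hQ

lemma HH_inv : (i1 g3 ^ 2 + i1 g3 * i2 g3 + i2 g3 ^ 2) * HH = 1 := by
  have h1 : i1 g3 ^ 3 - i2 g3 ^ 3 = (X : DD) - C (X : PowerSeries ℂ) := by
    rw [← map_pow, ← map_pow, g3_cube]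
    simp [i1, i2]
  have h2 := HH_rel
  have h3 : (X : DD) - C (X : PowerSeries ℂ) ≠ 0 := by
    intro h
    have := congrArg (fun F : DD => coeff 0 (coeff 1 F)) h
    simp at this
  have h4 : i1 g3 - i2 g3 ≠ 0 := by
    intro h
    apply h3
    rw [← h1]
    linear_combination (i1 g3 ^ 2 + i1 g3 * i2 g3 + i2 g3 ^ 2) * h
  apply mul_left_cancel₀ h4
  linear_combination h2 + HH * h1

/-- the transformation of the kernel -/
theorem theta_KK (w : ℂ) (hw : w ^ 2 + w + 1 = 0) :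
    theta (phi (w + 1)) (psi (w + 1)) (phi_const _) (psi_const _) (KK w) =
      i1 (uu (w + 1)) * (i2 (C (w ^ 2 / 3) * vv (w + 1) * g3) * HH) := by
  set th := theta (phi (w + 1)) (psi (w + 1)) (phi_const _) (psi_const _) with hth
  have hK := congrArg th (KK_rel w hw)
  rw [map_mul, map_mul, map_sub, map_sub, map_sub, map_mul, map_one, hth, theta_i1, theta_i2,
    ← hth, map_neg, map_mul, map_add, map_add, hth, theta_i1, theta_i2, theta_const, ← hth] at hK
  set x : DD := i1 g3 with hx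
  set y : DD := i2 g3 with hy
  set W : DD := C (C w) with hW
  have hWr : W ^ 2 + W + 1 = 0 := by
    have := congrArg (fun z : ℂ => (C (C z) : DD)) hw
    simpa using this
  have c1 : ∀ z : ℂ, i1 (C z) = C (C z) := by
    intro z
    simp [i1]
  have c2 : ∀ z : ℂ, i2 (C z) = C (C z) := by
    intro z
    simp [i2]
  have k2 : (C (C (2 : ℂ)) : DD) = 2 := by
    rw [map_ofNat, map_ofNat]
  have k3 : (C (C (3 : ℂ)) : DD) = 3 := by
    rw [map_ofNat, map_ofNat]
  have hU : i1 (uu (w + 1)) = (W - 1) * x - (2 + W) := by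
    unfold uu
    rw [map_sub i1, map_mul, c1, c1, show w + 1 - 2 = w - 1 by ring,
      show 1 + (w + 1) = 2 + w by ring]
    simp only [map_sub, map_add, map_one, k2, hW, hx]
  have hV : i2 (vv (w + 1)) = (W + 2) * y + (1 - W) := by
    unfold vv
    rw [map_add i2, map_mul, c2, c2, show w + 1 + 1 = w + 2 by ring,
      show 2 - (w + 1) = 1 - w by ring]
    simp only [map_sub, map_add, map_one, k2, hW, hy]
  have hP : i1 (phi (w + 1)) * i1 (uu (w + 1)) = (2 * W + 1) * (x - 1) := by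
    rw [← map_mul, phi_mul, map_mul, c1, map_sub i1, map_one,
      show 2 * (w + 1) - 1 = 2 * w + 1 by ring]
    simp only [map_mul, map_add, map_one, k2, hW, hx]
  have hQ : i2 (psi (w + 1)) * i2 (vv (w + 1)) = (2 * W + 1) * (y - 1) := by
    rw [← map_mul, psi_mul, map_mul, c2, map_sub i2, map_one,
      show 2 * (w + 1) - 1 = 2 * w + 1 by ring]
    simp only [map_mul, map_add, map_one, k2, hW, hy]
  have hB : i2 (C (w ^ 2 / 3) * vv (w + 1) * g3) = C (C (w ^ 2 / 3)) * i2 (vv (w + 1)) * y := by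
    rw [map_mul, map_mul, c2]
  have h9 : (C (C (w ^ 2 / 3)) : DD) * 3 = W ^ 2 := by
    rw [← k3, hW, ← map_mul, ← map_mul, ← map_pow, ← map_pow]
    congr 2
    field_simp
  have hH := HH_inv
  rw [← hx, ← hy] at hH
  rw [hB]
  set U : DD := i1 (uu (w + 1)) with hUd
  set V : DD := i2 (vv (w + 1)) with hVd
  set Φ : DD := i1 (phi (w + 1)) with hPd
  set Ψ : DD := i2 (psi (w + 1)) with hQd
  set K : DD := th (KK w) with hKd
  set Z : DD := C (C (w ^ 2 / 3)) with hZ
  have hid := alg_identity (W + 1) x y (by linear_combination hWr)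
  have hid' : (U * V - Φ * U * (Ψ * V)) * (U * V - Φ * U * V - Ψ * V * U) =
      27 * (x ^ 2 + x * y + y ^ 2) := by
    rw [hP, hQ, hU, hV]
    linear_combination hid
  have hn1 : Φ * U + W * U = -3 * W := by
    rw [hP, hU]
    linear_combination (x - 1) * hWr
  have hn2 : Ψ * V + W * V = 3 * W * y := by
    rw [hQ, hV]
    linear_combination (y - 1) * hWr
  have h27 : (27 : DD) ≠ 0 := by
    have : (27 : DD) = C (C (27 : ℂ)) := by rw [map_ofNat, map_ofNat]
    rw [this]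
    intro h
    have := congrArg (fun F : DD => coeff 0 (coeff 0 F)) h
    simp at this
  apply mul_left_cancel₀ h27
  have s1 : 27 * K * (x ^ 2 + x * y + y ^ 2) = 9 * W ^ 2 * y * U * V := by
    linear_combination (-K) * hid' + U ^ 2 * V ^ 2 * hK - U * V * (Ψ * V + W * V) * hn1
      + 3 * W * U * V * hn2
  linear_combination HH * s1 - 27 * K * hH + 9 * U * V * y * HH * (-h9)

/-- the power of 1/27 -/
lemma prod_consts (w : ℂ) (hw : w ^ 2 + w + 1 = 0) :
    coeff 1 (phi (w + 1)) * coeff 1 (psi (w + 1)) = 1 / 27 := by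
  rw [phi_one, psi_one]
  linear_combination (-4 / 81) * hw

/-- TA-T1 -/
theorem det_pascal (N : ℕ) (w : ℂ) (hw : w ^ 2 + w + 1 = 0) :
    (w • (1 : Matrix (Fin N) (Fin N) ℂ) +
      Matrix.of fun i j : Fin N => ((((i : ℕ) + j).choose i : ℕ) : ℂ)).det =
      (-w ^ 2) ^ N * ∏ j ∈ range N, (((3 * j + 1)! : ℕ) : ℂ) / (((N + j)! : ℕ) : ℂ) := by
  have h := det_transform N (phi (w + 1)) (psi (w + 1)) (uu (w + 1))
    (C (w ^ 2 / 3) * vv (w + 1) * g3) (phi_const _) (psi_const _) (KK w) HH (theta_KK w hw)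
  have hK : cm N (KK w) = w • (1 : Matrix (Fin N) (Fin N) ℂ) +
      Matrix.of fun i j : Fin N => ((((i : ℕ) + j).choose i : ℕ) : ℂ) := by
    ext i j
    simp only [cm, KK, Matrix.of_apply, coeff_mk, Matrix.add_apply, Matrix.smul_apply,
      Matrix.one_apply, smul_eq_mul, Fin.ext_iff]
  have hH : cm N HH = Matrix.of fun i j : Fin N => bin (1 / 3) ((i : ℕ) + j + 1) := by
    ext i j
    simp only [cm, HH, Matrix.of_apply, coeff_mk]
  rw [hK, hH, det_hankel_third, prod_consts w hw] at h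
  have hc : constantCoeff (uu (w + 1)) * constantCoeff (C (w ^ 2 / 3) * vv (w + 1) * g3) =
      3 * (-w ^ 2) := by
    simp [uu_const, vv_const, g3_const]
  rw [hc] at h
  have h27 : ∏ i : Fin N, ((1 : ℂ) / 27) ^ (i : ℕ) ≠ 0 :=
    Finset.prod_ne_zero_iff.2 (fun i _ => pow_ne_zero _ (by norm_num))
  apply mul_left_cancel₀ h27
  rw [h, mul_pow]
  have h3 : (3 : ℂ) ^ N = ∏ i : Fin N, (3 : ℂ) := by simp
  rw [h3]
  have e : ∏ j ∈ range N, (((3 * j + 1)! : ℕ) : ℂ) / (((N + j)! : ℕ) : ℂ) =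
      ∏ i : Fin N, (((3 * (i : ℕ) + 1)! : ℕ) : ℂ) / (((N + (i : ℕ))! : ℕ) : ℂ) :=
    (Fin.prod_univ_eq_prod_range (fun j => (((3 * j + 1)! : ℕ) : ℂ) / (((N + j)! : ℕ) : ℂ)) N).symm
  rw [e]
  have e2 : ∀ i : Fin N, (3 : ℂ) * ((((3 * (i : ℕ) + 1)! : ℕ) : ℂ) / 3 ^ (3 * (i : ℕ) + 1) /
      (((N + (i : ℕ))! : ℕ) : ℂ)) = ((1 : ℂ) / 27) ^ (i : ℕ) *
      ((((3 * (i : ℕ) + 1)! : ℕ) : ℂ) / (((N + (i : ℕ))! : ℕ) : ℂ)) := by
    intro i
    rw [pow_succ, pow_mul, one_div, inv_pow]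
    have : (27 : ℂ) ^ (i : ℕ) ≠ 0 := pow_ne_zero _ (by norm_num)
    have h4 : ((3 : ℂ) ^ 3) = 27 := by norm_num
    rw [h4]
    field_simp
  have e3 := Finset.prod_congr rfl (fun i (_ : i ∈ (Finset.univ : Finset (Fin N))) => e2 i)
  rw [Finset.prod_mul_distrib, Finset.prod_mul_distrib] at e3
  linear_combination (-w ^ 2) ^ N * e3

end Pool.Agent.H83.TA
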